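import Mathlib
import Pool.Agent.Q55.PrimePowSum

namespace Pool.Agent.Results.MP_9f71e8_nt.AllRepresentable

open Pool.Agent.Q55.PrimePowSum

/-- `n` is representable: `n = p_1^{α_1} + ... + p_L^{α_L}` with `L ≥ 1` and all `α_j ≥ 1`,
where `p_{j+1} = Nat.nth Nat.Prime j` is the `(j+1)`-st prime. -/
def Representable (n : ℕ) : Prop :=
  ∃ L : ℕ, 1 ≤ L ∧ ∃ α : ℕ → ℕ, (∀ j, 1 ≤ α j) ∧
    n = ∑ j ∈ Finset.range L, (Nat.nth Nat.Prime j) ^ α j

/-- `33` is the largest positive integer that is not representable. -/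
theorem result : ¬ Representable 33 ∧ ∀ n : ℕ, 34 ≤ n → Representable n := by
  refine ⟨?_, ?_⟩
  · rintro ⟨L, _, hα⟩
    exact not_rep_33 L ((rep_iff L 33).2 hα)
  · intro n hn
    obtain ⟨L, hL, h⟩ := all n hn
    exact ⟨L, hL, (rep_iff L n).1 h⟩

end Pool.Agent.Results.MP_9f71e8_nt.AllRepresentable
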